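import Mathlib
import Pool.Agent.Helper20.MR.Perm

/-! Second and third coefficients of the permanent along a line on which it vanishes. -/

namespace Pool.Agent.Helper20.MR2

open Polynomial Pool.Agent.Helper20.MR

variable {N K : Type*} [DecidableEq N] [Field K]

theorem deriv_prod (s : Finset N) (x y : N → K) :
    derivative (∏ i ∈ s, (C (x i) + X * C (y i))) =
      ∑ i ∈ s, (∏ j ∈ s.erase i, (C (x j) + X * C (y j))) * C (y i) := by
  rw [Polynomial.derivative_prod_finset]
  refine Finset.sum_congr rfl fun i _ => ?_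
  congr 1
  simp

theorem deriv2 (s : Finset N) (x y : N → K) :
    derivative (derivative (∏ i ∈ s, (C (x i) + X * C (y i)))) =
      ∑ i ∈ s, ∑ j ∈ s.erase i, (∏ l ∈ (s.erase i).erase j, (C (x l) + X * C (y l))) *
        C (y i * y j) := by
  rw [deriv_prod, map_sum]
  refine Finset.sum_congr rfl fun i _ => ?_
  rw [Polynomial.derivative_mul, Polynomial.derivative_C, mul_zero, add_zero, deriv_prod,
    Finset.sum_mul]
  refine Finset.sum_congr rfl fun j _ => ?_
  rw [C_mul]
  ring

theorem deriv3 (s : Finset N) (x y : N → K) :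
    derivative (derivative (derivative (∏ i ∈ s, (C (x i) + X * C (y i))))) =
      ∑ i ∈ s, ∑ j ∈ s.erase i, ∑ k ∈ (s.erase i).erase j,
        (∏ l ∈ ((s.erase i).erase j).erase k, (C (x l) + X * C (y l))) *
          C (y i * (y j * y k)) := by
  rw [deriv2, map_sum]
  refine Finset.sum_congr rfl fun i _ => ?_
  rw [map_sum]
  refine Finset.sum_congr rfl fun j _ => ?_
  rw [Polynomial.derivative_mul, Polynomial.derivative_C, mul_zero, add_zero, deriv_prod,
    Finset.sum_mul]
  refine Finset.sum_congr rfl fun k _ => ?_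
  rw [C_mul, C_mul, C_mul]
  ring

theorem perm_coeffs [Fintype N] [Infinite K] (x y : N → N → K)
    (h : ∀ t : K, permMl N K (fun i a => x i a + t * y i a) = 0) :
    (∑ σ : Equiv.Perm N, ∑ i, ∑ j ∈ Finset.univ.erase i,
      (∏ l ∈ (Finset.univ.erase i).erase j, x l (σ l)) * (y i (σ i) * y j (σ j)) = 0) ∧
    (∑ σ : Equiv.Perm N, ∑ i, ∑ j ∈ Finset.univ.erase i,
      ∑ k ∈ (Finset.univ.erase i).erase j,
        (∏ l ∈ ((Finset.univ.erase i).erase j).erase k, x l (σ l)) *
          (y i (σ i) * (y j (σ j) * y k (σ k))) = 0) := by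
  have h0 : (∑ σ : Equiv.Perm N, ∏ i, (C (x i (σ i)) + X * C (y i (σ i)))) = 0 := by
    refine Polynomial.funext fun t => ?_
    rw [eval_zero, eval_finsetSum, ← h t, permMl_apply]
    refine Finset.sum_congr rfl fun σ _ => ?_
    rw [eval_prod]
    refine Finset.prod_congr rfl fun i _ => ?_
    simp only [eval_add, eval_mul, eval_C, eval_X]
  constructor
  · have h1 := congrArg (fun p => eval 0 (derivative (derivative p))) h0
    simp only [map_sum, derivative_zero, eval_zero, eval_finsetSum] at h1
    rw [← h1]
    refine Finset.sum_congr rfl fun σ _ => ?_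
    rw [deriv2]
    simp [eval_finsetSum, eval_prod]
  · have h1 := congrArg (fun p => eval 0 (derivative (derivative (derivative p)))) h0
    simp only [map_sum, derivative_zero, eval_zero, eval_finsetSum] at h1
    rw [← h1]
    refine Finset.sum_congr rfl fun σ _ => ?_
    rw [deriv3]
    simp [eval_finsetSum, eval_prod]

end Pool.Agent.Helper20.MR2
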