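import Mathlib
import Pool.Agent.Helper20.MR.Hess

/-! Weighted sums over permutations at the Mignon-Ressayre point. -/

namespace Pool.Agent.Helper20.MR2

open Pool.Agent.Helper20.MR

variable {N : Type*} [Fintype N] [DecidableEq N]

theorem exists_perm4 (a b d e a' b' d' e' : N) (hab : a ≠ b) (had : a ≠ d) (hae : a ≠ e)
    (hbd : b ≠ d) (hbe : b ≠ e) (hde : d ≠ e) (hab' : a' ≠ b') (had' : a' ≠ d') (hae' : a' ≠ e')
    (hbd' : b' ≠ d') (hbe' : b' ≠ e') (hde' : d' ≠ e') :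
    ∃ τ : Equiv.Perm N, τ a = a' ∧ τ b = b' ∧ τ d = d' ∧ τ e = e' := by
  obtain ⟨τ, h1, h2, h3⟩ := exists_perm3 a b d a' b' d' hab had hbd hab' had' hbd'
  have h4 : τ e ≠ a' := by
    rw [← h1]
    exact fun h => hae (τ.injective h).symm
  have h5 : τ e ≠ b' := by
    rw [← h2]
    exact fun h => hbe (τ.injective h).symm
  have h6 : τ e ≠ d' := by
    rw [← h3]
    exact fun h => hde (τ.injective h).symm
  refine ⟨Equiv.swap (τ e) e' * τ, ?_, ?_, ?_, ?_⟩
  · rw [Equiv.Perm.mul_apply, h1]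
    exact Equiv.swap_apply_of_ne_of_ne h4.symm hae'
  · rw [Equiv.Perm.mul_apply, h2]
    exact Equiv.swap_apply_of_ne_of_ne h5.symm hbe'
  · rw [Equiv.Perm.mul_apply, h3]
    exact Equiv.swap_apply_of_ne_of_ne h6.symm hde'
  · rw [Equiv.Perm.mul_apply]
    exact Equiv.swap_apply_left _ _

/-- Number of permutations with four prescribed values. -/
def cnt4 (i j k l a b d e : N) : ℕ :=
  (Finset.univ.filter fun σ : Equiv.Perm N => σ i = a ∧ σ j = b ∧ σ k = d ∧ σ l = e).card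

theorem cnt4_eq (i j k l a b d e i' j' k' l' a' b' d' e' : N)
    (hij : i ≠ j) (hik : i ≠ k) (hil : i ≠ l) (hjk : j ≠ k) (hjl : j ≠ l) (hkl : k ≠ l)
    (hab : a ≠ b) (had : a ≠ d) (hae : a ≠ e) (hbd : b ≠ d) (hbe : b ≠ e) (hde : d ≠ e)
    (hij' : i' ≠ j') (hik' : i' ≠ k') (hil' : i' ≠ l') (hjk' : j' ≠ k') (hjl' : j' ≠ l')
    (hkl' : k' ≠ l') (hab' : a' ≠ b') (had' : a' ≠ d') (hae' : a' ≠ e') (hbd' : b' ≠ d')
    (hbe' : b' ≠ e') (hde' : d' ≠ e') :
    cnt4 i j k l a b d e = cnt4 i' j' k' l' a' b' d' e' := by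
  obtain ⟨τ, h1, h2, h3, h4⟩ := exists_perm4 a b d e a' b' d' e' hab had hae hbd hbe hde
    hab' had' hae' hbd' hbe' hde'
  obtain ⟨ρ, g1, g2, g3, g4⟩ := exists_perm4 i' j' k' l' i j k l hij' hik' hil' hjk' hjl' hkl'
    hij hik hil hjk hjl hkl
  refine Finset.card_bijective (fun σ => τ * σ * ρ) ?_ ?_
  · exact (Group.mulRight_bijective ρ).comp (Group.mulLeft_bijective τ)
  · intro σ
    simp only [Finset.mem_filter, Finset.mem_univ, true_and, Equiv.Perm.mul_apply, g1, g2, g3, g4]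
    rw [← h1, ← h2, ← h3, ← h4]
    simp

theorem cnt4_pos (i j k l a b d e : N) (hij : i ≠ j) (hik : i ≠ k) (hil : i ≠ l) (hjk : j ≠ k)
    (hjl : j ≠ l) (hkl : k ≠ l)
    (hab : a ≠ b) (had : a ≠ d) (hae : a ≠ e) (hbd : b ≠ d) (hbe : b ≠ e) (hde : d ≠ e) :
    0 < cnt4 i j k l a b d e := by
  obtain ⟨τ, h1, h2, h3, h4⟩ := exists_perm4 i j k l a b d e hij hik hil hjk hjl hkl
    hab had hae hbd hbe hde
  rw [cnt4, Finset.card_pos]
  exact ⟨τ, by simp [h1, h2, h3, h4]⟩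

theorem cnt4_zero (i j k l a b d e : N) (hij : i ≠ j) (hik : i ≠ k) (hil : i ≠ l) (hjk : j ≠ k)
    (hjl : j ≠ l) (hkl : k ≠ l)
    (h : ¬ (a ≠ b ∧ a ≠ d ∧ a ≠ e ∧ b ≠ d ∧ b ≠ e ∧ d ≠ e)) : cnt4 i j k l a b d e = 0 := by
  rw [cnt4, Finset.card_eq_zero, Finset.filter_eq_empty_iff]
  rintro σ _ ⟨h1, h2, h3, h4⟩
  apply h
  subst h1 h2 h3 h4
  exact ⟨fun h => hij (σ.injective h), fun h => hik (σ.injective h), fun h => hil (σ.injective h),
    fun h => hjk (σ.injective h), fun h => hjl (σ.injective h), fun h => hkl (σ.injective h)⟩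

theorem cnt3_zero (i j k a b d : N) (hij : i ≠ j) (hik : i ≠ k) (hjk : j ≠ k)
    (h : ¬ (a ≠ b ∧ a ≠ d ∧ b ≠ d)) : cnt3 i j k a b d = 0 := by
  rw [cnt3, Finset.card_eq_zero, Finset.filter_eq_empty_iff]
  rintro σ _ ⟨h1, h2, h3⟩
  apply h
  subst h1 h2 h3
  exact ⟨fun h => hij (σ.injective h), fun h => hik (σ.injective h),
    fun h => hjk (σ.injective h)⟩

variable {K : Type*} [Field K]

/-- Sum over permutations of a function of three values. -/
theorem sum_perm3 (i j k : N) (F : N → N → N → K) :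
    ∑ σ : Equiv.Perm N, F (σ i) (σ j) (σ k) =
      ∑ a, ∑ b, ∑ d, (cnt3 i j k a b d : K) * F a b d := by
  have h2 : (∑ a, ∑ b, ∑ d, (cnt3 i j k a b d : K) * F a b d) =
      ∑ p : N × N × N, (cnt3 i j k p.1 p.2.1 p.2.2 : K) * F p.1 p.2.1 p.2.2 := by
    simp only [Fintype.sum_prod_type]
  rw [h2]
  rw [← Finset.sum_fiberwise_of_maps_to (s := (Finset.univ : Finset (Equiv.Perm N)))
    (t := (Finset.univ : Finset (N × N × N))) (g := fun σ => (σ i, σ j, σ k))
    (by intro σ _; simp)]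
  refine Finset.sum_congr rfl fun p _ => ?_
  rw [Finset.sum_congr rfl (g := fun _ => F p.1 p.2.1 p.2.2)]
  · rw [Finset.sum_const, nsmul_eq_mul, cnt3]
    congr 3
    ext σ
    simp [Prod.ext_iff]
  · intro σ hσ
    rw [← (Finset.mem_filter.mp hσ).2]

/-- Sum over permutations of a function of four values. -/
theorem sum_perm4 (i j k l : N) (F : N → N → N → N → K) :
    ∑ σ : Equiv.Perm N, F (σ i) (σ j) (σ k) (σ l) =
      ∑ a, ∑ b, ∑ d, ∑ e, (cnt4 i j k l a b d e : K) * F a b d e := by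
  have h2 : (∑ a, ∑ b, ∑ d, ∑ e, (cnt4 i j k l a b d e : K) * F a b d e) =
      ∑ p : N × N × N × N, (cnt4 i j k l p.1 p.2.1 p.2.2.1 p.2.2.2 : K) *
        F p.1 p.2.1 p.2.2.1 p.2.2.2 := by
    simp only [Fintype.sum_prod_type]
  rw [h2]
  rw [← Finset.sum_fiberwise_of_maps_to (s := (Finset.univ : Finset (Equiv.Perm N)))
    (t := (Finset.univ : Finset (N × N × N × N))) (g := fun σ => (σ i, σ j, σ k, σ l))
    (by intro σ _; simp)]
  refine Finset.sum_congr rfl fun p _ => ?_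
  rw [Finset.sum_congr rfl (g := fun _ => F p.1 p.2.1 p.2.2.1 p.2.2.2)]
  · rw [Finset.sum_const, nsmul_eq_mul, cnt4]
    congr 3
    ext σ
    simp [Prod.ext_iff]
  · intro σ hσ
    rw [← (Finset.mem_filter.mp hσ).2]

variable [CharZero K]

/-- the entries of row `o` of the Mignon-Ressayre point -/
theorem mrPt_o (o a : N) : mrPt N K o o a = 1 - if a = o then (Fintype.card N : K) else 0 := by
  simp [mrPt, J, Pi.single_apply]

theorem mrPt_ne (o i a : N) (hi : i ≠ o) : mrPt N K o i a = 1 := by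
  simp [mrPt, J, hi]

/-- total weight of the values different from two given ones -/
theorem weight2 (o a b : N) (hab : a ≠ b) (ha : a ≠ o) (hb : b ≠ o) :
    ∑ e ∈ (Finset.univ.erase a).erase b, mrPt N K o o e = -2 := by
  have h1 : ∑ e, mrPt N K o o e = 0 := by
    simp only [mrPt_o, Finset.sum_sub_distrib, Finset.sum_const, Finset.card_univ, nsmul_eq_mul,
      mul_one, Finset.sum_ite_eq', Finset.mem_univ, if_true, sub_self]
  have h2 := Finset.add_sum_erase Finset.univ (fun e => mrPt N K o o e) (Finset.mem_univ a)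
  have h3 := Finset.add_sum_erase (Finset.univ.erase a) (fun e => mrPt N K o o e)
    (Finset.mem_erase.mpr ⟨hab.symm, Finset.mem_univ b⟩)
  have h4 : mrPt N K o o a = 1 := by rw [mrPt_o, if_neg ha, sub_zero]
  have h5 : mrPt N K o o b = 1 := by rw [mrPt_o, if_neg hb, sub_zero]
  rw [h1, h4] at h2
  rw [h5] at h3
  linear_combination h2 + h3

theorem weight3 (o a b d : N) (hab : a ≠ b) (had : a ≠ d) (hbd : b ≠ d) (ha : a ≠ o)
    (hb : b ≠ o) (hd : d ≠ o) :
    ∑ e ∈ ((Finset.univ.erase a).erase b).erase d, mrPt N K o o e = -3 := by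
  have h3 := Finset.add_sum_erase ((Finset.univ.erase a).erase b) (fun e => mrPt N K o o e)
    (Finset.mem_erase.mpr ⟨hbd.symm, Finset.mem_erase.mpr ⟨had.symm, Finset.mem_univ d⟩⟩)
  have h5 : mrPt N K o o d = 1 := by rw [mrPt_o, if_neg hd, sub_zero]
  rw [h5, weight2 o a b hab ha hb] at h3
  linear_combination h3

end Pool.Agent.Helper20.MR2
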