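import Mathlib

/-! Sums over distinct rows and distinct columns of a matrix with zero row and column sums. -/

namespace Pool.Agent.Helper20.MR2

variable {N K : Type*} [Fintype N] [DecidableEq N] [CommRing K]

theorem sum_erase1 (f : N → K) (a : N) (h : ∑ b, f b = 0) :
    ∑ b ∈ Finset.univ.erase a, f b = -f a := by
  have := Finset.add_sum_erase Finset.univ f (Finset.mem_univ a)
  rw [h] at this
  linear_combination this

theorem sum_erase2 (f : N → K) (a b : N) (hab : a ≠ b) (h : ∑ b, f b = 0) :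
    ∑ d ∈ (Finset.univ.erase a).erase b, f d = -f a - f b := by
  have h1 := Finset.add_sum_erase (Finset.univ.erase a) f
    (Finset.mem_erase.mpr ⟨hab.symm, Finset.mem_univ b⟩)
  rw [sum_erase1 f a h] at h1
  linear_combination h1

variable (Y : N → N → K) (hr : ∀ i, ∑ a, Y i a = 0) (hc : ∀ a, ∑ i, Y i a = 0)

include hr hc

/-- The quadratic sum. -/
theorem sum_two :
    ∑ i, ∑ j ∈ Finset.univ.erase i, ∑ a, ∑ b ∈ Finset.univ.erase a, Y i a * Y j b =
      ∑ i, ∑ a, Y i a ^ 2 := by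
  refine Finset.sum_congr rfl fun i _ => ?_
  rw [Finset.sum_comm]
  refine Finset.sum_congr rfl fun a _ => ?_
  have h1 : ∀ j, ∑ b ∈ Finset.univ.erase a, Y i a * Y j b = Y i a * -Y j a := by
    intro j
    rw [← Finset.mul_sum, sum_erase1 _ _ (hr j)]
  rw [Finset.sum_congr rfl (fun j _ => h1 j), ← Finset.mul_sum, Finset.sum_neg_distrib,
    sum_erase1 (fun j => Y j a) i (hc a)]
  ring

/-- The cubic sum. -/
theorem sum_three :
    ∑ i, ∑ j ∈ Finset.univ.erase i, ∑ k ∈ (Finset.univ.erase i).erase j,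
      ∑ a, ∑ b ∈ Finset.univ.erase a, ∑ d ∈ (Finset.univ.erase a).erase b,
        Y i a * (Y j b * Y k d) = 4 * ∑ i, ∑ a, Y i a ^ 3 := by
  -- the inner sum over the last row and column
  have h1 : ∀ i j, i ≠ j → ∀ a b, a ≠ b →
      ∑ k ∈ (Finset.univ.erase i).erase j, ∑ d ∈ (Finset.univ.erase a).erase b, Y k d =
        Y i a + Y j a + Y i b + Y j b := by
    intro i j hij a b hab
    have h2 : ∀ k, ∑ d ∈ (Finset.univ.erase a).erase b, Y k d = -Y k a - Y k b :=
      fun k => sum_erase2 _ a b hab (hr k)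
    rw [Finset.sum_congr rfl (fun k _ => h2 k), Finset.sum_sub_distrib, Finset.sum_neg_distrib,
      sum_erase2 (fun k => Y k a) i j hij (hc a), sum_erase2 (fun k => Y k b) i j hij (hc b)]
    ring
  have h3 : ∀ i, ∀ j ∈ Finset.univ.erase i, ∑ k ∈ (Finset.univ.erase i).erase j,
      ∑ a, ∑ b ∈ Finset.univ.erase a, ∑ d ∈ (Finset.univ.erase a).erase b,
        Y i a * (Y j b * Y k d) =
      ∑ a, ∑ b ∈ Finset.univ.erase a, Y i a * Y j b * (Y i a + Y j a + Y i b + Y j b) := by
    intro i j hj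
    rw [Finset.sum_comm]
    refine Finset.sum_congr rfl fun a _ => ?_
    rw [Finset.sum_comm]
    refine Finset.sum_congr rfl fun b hb => ?_
    rw [← h1 i j (Finset.ne_of_mem_erase hj).symm a b (Finset.ne_of_mem_erase hb).symm,
      Finset.mul_sum]
    refine Finset.sum_congr rfl fun k _ => ?_
    rw [Finset.mul_sum]
    refine Finset.sum_congr rfl fun d _ => ?_
    ring
  rw [Finset.sum_congr rfl (fun i _ => Finset.sum_congr rfl (h3 i))]
  -- evaluate the sum over `b`
  have h4 : ∀ i j a, ∑ b ∈ Finset.univ.erase a, Y i a * Y j b * (Y i a + Y j a + Y i b + Y j b) =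
      Y i a * (-(Y i a + Y j a) * Y j a) + Y i a * (∑ b, Y j b * Y i b - Y j a * Y i a) +
        Y i a * (∑ b, Y j b ^ 2 - Y j a ^ 2) := by
    intro i j a
    have h5 := sum_erase1 (Y j) a (hr j)
    have h6 := Finset.add_sum_erase Finset.univ (fun b => Y j b * Y i b) (Finset.mem_univ a)
    have h7 := Finset.add_sum_erase Finset.univ (fun b => Y j b ^ 2) (Finset.mem_univ a)
    have h8 : ∑ b ∈ Finset.univ.erase a, Y i a * Y j b * (Y i a + Y j a + Y i b + Y j b) =
        Y i a * (Y i a + Y j a) * ∑ b ∈ Finset.univ.erase a, Y j b +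
        Y i a * ∑ b ∈ Finset.univ.erase a, Y j b * Y i b +
        Y i a * ∑ b ∈ Finset.univ.erase a, Y j b ^ 2 := by
      rw [Finset.mul_sum, Finset.mul_sum, Finset.mul_sum, ← Finset.sum_add_distrib,
        ← Finset.sum_add_distrib]
      refine Finset.sum_congr rfl fun b _ => ?_
      ring
    rw [h8, h5, ← h6, ← h7]
    ring
  have h9 : ∀ i j, ∑ a, ∑ b ∈ Finset.univ.erase a,
      Y i a * Y j b * (Y i a + Y j a + Y i b + Y j b) =
      ∑ a, (Y i a * (-(Y i a + Y j a) * Y j a) + Y i a * (- (Y j a * Y i a)) +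
        Y i a * (- Y j a ^ 2)) := by
    intro i j
    rw [Finset.sum_congr rfl (fun a _ => h4 i j a)]
    have h10 : ∀ a, Y i a * (-(Y i a + Y j a) * Y j a) +
        Y i a * (∑ b, Y j b * Y i b - Y j a * Y i a) +
        Y i a * (∑ b, Y j b ^ 2 - Y j a ^ 2) =
        (Y i a * (-(Y i a + Y j a) * Y j a) + Y i a * (- (Y j a * Y i a)) +
        Y i a * (- Y j a ^ 2)) + Y i a * (∑ b, Y j b * Y i b + ∑ b, Y j b ^ 2) := by
      intro a
      ring
    rw [Finset.sum_congr rfl (fun a _ => h10 a), Finset.sum_add_distrib, ← Finset.sum_mul, hr i,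
      zero_mul, add_zero]
  rw [Finset.sum_congr rfl (fun i _ => Finset.sum_congr rfl (fun j _ => h9 i j))]
  -- swap the sums and evaluate the sum over `j`
  have h11 : ∀ i, ∑ j ∈ Finset.univ.erase i, ∑ a, (Y i a * (-(Y i a + Y j a) * Y j a) +
      Y i a * (- (Y j a * Y i a)) + Y i a * (- Y j a ^ 2)) =
      ∑ a, (4 * Y i a ^ 3 - 2 * Y i a * ∑ j, Y j a ^ 2) := by
    intro i
    rw [Finset.sum_comm]
    refine Finset.sum_congr rfl fun a _ => ?_
    have h12 := sum_erase1 (fun j => Y j a) i (hc a)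
    have h13 := Finset.add_sum_erase Finset.univ (fun j => Y j a ^ 2) (Finset.mem_univ i)
    have h14 : ∑ j ∈ Finset.univ.erase i, (Y i a * (-(Y i a + Y j a) * Y j a) +
      Y i a * (- (Y j a * Y i a)) + Y i a * (- Y j a ^ 2)) =
      -2 * Y i a ^ 2 * ∑ j ∈ Finset.univ.erase i, Y j a
        - 2 * Y i a * ∑ j ∈ Finset.univ.erase i, Y j a ^ 2 := by
      rw [Finset.mul_sum, Finset.mul_sum, ← Finset.sum_sub_distrib]
      refine Finset.sum_congr rfl fun j _ => ?_
      ring
    rw [h14, h12, ← h13]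
    ring
  rw [Finset.sum_congr rfl (fun i _ => h11 i)]
  have h15 : ∑ i, ∑ a, (2 * Y i a * ∑ j, Y j a ^ 2) = 0 := by
    rw [Finset.sum_comm]
    refine Finset.sum_eq_zero fun a _ => ?_
    rw [← Finset.sum_mul, ← Finset.mul_sum, hc a, mul_zero, zero_mul]
  simp only [Finset.sum_sub_distrib]
  rw [h15, sub_zero, Finset.mul_sum]
  refine Finset.sum_congr rfl fun i _ => ?_
  rw [Finset.mul_sum]

end Pool.Agent.Helper20.MR2
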