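import Mathlib
import Pool.Agent.Helper20.MR2.Count4
import Pool.Agent.Helper20.MR2.Coeff
import Pool.Agent.Helper20.MR2.Sums

/-! The quadratic and the cubic form at the Mignon-Ressayre point. -/

namespace Pool.Agent.Helper20.MR2

open Pool.Agent.Helper20.MR

variable {N : Type*} [Fintype N] [DecidableEq N] {K : Type*} [Field K] [CharZero K]

theorem form2 (κ : ℕ) (hκ : ∀ i j k a b d : N, i ≠ j → i ≠ k → j ≠ k → a ≠ b → a ≠ d →
      b ≠ d → cnt3 i j k a b d = κ)
    (o : N) (Y : N → N → K) (hYc : ∀ i, Y i o = 0) (i j : N) (hij : i ≠ j) (hio : i ≠ o)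
    (hjo : j ≠ o) :
    ∑ σ : Equiv.Perm N, mrPt N K o o (σ o) * (Y i (σ i) * Y j (σ j)) =
      -2 * κ * ∑ a, ∑ b ∈ Finset.univ.erase a, Y i a * Y j b := by
  rw [sum_perm3 i j o (fun a b e => mrPt N K o o e * (Y i a * Y j b)), Finset.mul_sum]
  refine Finset.sum_congr rfl fun a _ => ?_
  rw [← Finset.sum_erase (s := Finset.univ) (a := a), Finset.mul_sum]
  · refine Finset.sum_congr rfl fun b hb => ?_
    have hba := Finset.ne_of_mem_erase hb
    by_cases ha : a = o
    · subst ha
      simp [hYc]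
    by_cases hb' : b = o
    · subst hb'
      simp [hYc]
    rw [← Finset.sum_erase (s := Finset.univ) (a := a), ← Finset.sum_erase (s := Finset.univ.erase a) (a := b)]
    · have h1 : ∀ e ∈ (Finset.univ.erase a).erase b,
          (cnt3 i j o a b e : K) * (mrPt N K o o e * (Y i a * Y j b)) =
            κ * (Y i a * Y j b) * mrPt N K o o e := by
        intro e he
        have h2 := Finset.ne_of_mem_erase he
        have h3 := Finset.ne_of_mem_erase (Finset.mem_of_mem_erase he)
        rw [hκ i j o a b e hij hio hjo hba.symm h3.symm h2.symm]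
        ring
      rw [Finset.sum_congr rfl h1, ← Finset.mul_sum, weight2 o a b hba.symm ha hb']
      ring
    · rw [cnt3_zero i j o a b b hij hio hjo (by tauto)]
      simp
    · rw [cnt3_zero i j o a b a hij hio hjo (by tauto)]
      simp
  · refine Finset.sum_eq_zero fun e _ => ?_
    rw [cnt3_zero i j o a a e hij hio hjo (by tauto)]
    simp

theorem form3 (κ : ℕ) (hκ : ∀ i j k l a b d e : N, i ≠ j → i ≠ k → i ≠ l → j ≠ k → j ≠ l →
      k ≠ l → a ≠ b → a ≠ d → a ≠ e → b ≠ d → b ≠ e → d ≠ e → cnt4 i j k l a b d e = κ)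
    (o : N) (Y : N → N → K) (hYc : ∀ i, Y i o = 0) (i j k : N) (hij : i ≠ j) (hik : i ≠ k)
    (hjk : j ≠ k) (hio : i ≠ o) (hjo : j ≠ o) (hko : k ≠ o) :
    ∑ σ : Equiv.Perm N, mrPt N K o o (σ o) * (Y i (σ i) * (Y j (σ j) * Y k (σ k))) =
      -3 * κ * ∑ a, ∑ b ∈ Finset.univ.erase a, ∑ d ∈ (Finset.univ.erase a).erase b,
        Y i a * (Y j b * Y k d) := by
  rw [sum_perm4 i j k o (fun a b d e => mrPt N K o o e * (Y i a * (Y j b * Y k d))),
    Finset.mul_sum]
  refine Finset.sum_congr rfl fun a _ => ?_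
  rw [← Finset.sum_erase (s := Finset.univ) (a := a), Finset.mul_sum]
  · refine Finset.sum_congr rfl fun b hb => ?_
    have hba := Finset.ne_of_mem_erase hb
    rw [← Finset.sum_erase (s := Finset.univ) (a := a),
      ← Finset.sum_erase (s := Finset.univ.erase a) (a := b), Finset.mul_sum]
    · refine Finset.sum_congr rfl fun d hd => ?_
      have hdb := Finset.ne_of_mem_erase hd
      have hda := Finset.ne_of_mem_erase (Finset.mem_of_mem_erase hd)
      by_cases ha : a = o
      · subst ha
        simp [hYc]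
      by_cases hb' : b = o
      · subst hb'
        simp [hYc]
      by_cases hd' : d = o
      · subst hd'
        simp [hYc]
      rw [← Finset.sum_erase (s := Finset.univ) (a := a),
        ← Finset.sum_erase (s := Finset.univ.erase a) (a := b),
        ← Finset.sum_erase (s := (Finset.univ.erase a).erase b) (a := d)]
      · have h1 : ∀ e ∈ ((Finset.univ.erase a).erase b).erase d,
            (cnt4 i j k o a b d e : K) * (mrPt N K o o e * (Y i a * (Y j b * Y k d))) =
              κ * (Y i a * (Y j b * Y k d)) * mrPt N K o o e := by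
          intro e he
          have h2 := Finset.ne_of_mem_erase he
          have h3 := Finset.ne_of_mem_erase (Finset.mem_of_mem_erase he)
          have h4 := Finset.ne_of_mem_erase (Finset.mem_of_mem_erase (Finset.mem_of_mem_erase he))
          rw [hκ i j k o a b d e hij hik hio hjk hjo hko hba.symm hda.symm h4.symm hdb.symm
            h3.symm h2.symm]
          ring
        rw [Finset.sum_congr rfl h1, ← Finset.mul_sum,
          weight3 o a b d hba.symm hda.symm hdb.symm ha hb' hd']
        ring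
      · rw [cnt4_zero i j k o a b d d hij hik hio hjk hjo hko (by tauto)]
        simp
      · rw [cnt4_zero i j k o a b d b hij hik hio hjk hjo hko (by tauto)]
        simp
      · rw [cnt4_zero i j k o a b d a hij hik hio hjk hjo hko (by tauto)]
        simp
    · refine Finset.sum_eq_zero fun e _ => ?_
      rw [cnt4_zero i j k o a b b e hij hik hio hjk hjo hko (by tauto)]
      simp
    · refine Finset.sum_eq_zero fun e _ => ?_
      rw [cnt4_zero i j k o a b a e hij hik hio hjk hjo hko (by tauto)]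
      simp
  · refine Finset.sum_eq_zero fun d _ => Finset.sum_eq_zero fun e _ => ?_
    rw [cnt4_zero i j k o a a d e hij hik hio hjk hjo hko (by tauto)]
    simp

/-- If the permanent vanishes on the line through the Mignon-Ressayre point in direction `Y`,
where `Y` has zero row `o`, zero column `o` and zero row and column sums, then the sums of the
squares and of the cubes of the entries of `Y` vanish. -/
theorem forms_zero (hN : 4 ≤ Fintype.card N) (o : N) (Y : N → N → K)
    (hYr : ∀ a, Y o a = 0) (hYc : ∀ i, Y i o = 0)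
    (hr : ∀ i, ∑ a, Y i a = 0) (hc : ∀ a, ∑ i, Y i a = 0)
    (h : ∀ t : K, permMl N K (fun i a => mrPt N K o i a + t * Y i a) = 0) :
    ∑ i, ∑ a, Y i a ^ 2 = 0 ∧ ∑ i, ∑ a, Y i a ^ 3 = 0 := by
  obtain ⟨h2, h3⟩ := perm_coeffs (mrPt N K o) Y h
  -- four different indices
  obtain ⟨S, hS⟩ : ∃ f : Fin 4 → N, Function.Injective f := by
    have h4 : Fintype.card (Fin 4) ≤ Fintype.card N := by simpa using hN
    obtain ⟨f⟩ := Function.Embedding.nonempty_of_card_le h4
    exact ⟨f, f.injective⟩
  have n01 : S 0 ≠ S 1 := fun h => absurd (hS h) (by decide)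
  have n02 : S 0 ≠ S 2 := fun h => absurd (hS h) (by decide)
  have n03 : S 0 ≠ S 3 := fun h => absurd (hS h) (by decide)
  have n12 : S 1 ≠ S 2 := fun h => absurd (hS h) (by decide)
  have n13 : S 1 ≠ S 3 := fun h => absurd (hS h) (by decide)
  have n23 : S 2 ≠ S 3 := fun h => absurd (hS h) (by decide)
  constructor
  · let κ := cnt3 (S 0) (S 1) (S 2) (S 0) (S 1) (S 2)
    have hκ0 : (κ : K) ≠ 0 :=
      Nat.cast_ne_zero.mpr (cnt3_pos _ _ _ _ _ _ n01 n02 n12 n01 n02 n12).ne'
    have hκ : ∀ i j k a b d : N, i ≠ j → i ≠ k → j ≠ k → a ≠ b → a ≠ d →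
      b ≠ d → cnt3 i j k a b d = κ := fun i j k a b d h1 h2 h3 h4 h5 h6 =>
        cnt3_eq _ _ _ _ _ _ _ _ _ _ _ _ h1 h2 h3 h4 h5 h6 n01 n02 n12 n01 n02 n12
    have key : ∑ σ : Equiv.Perm N, ∑ i, ∑ j ∈ Finset.univ.erase i,
        (∏ l ∈ (Finset.univ.erase i).erase j, mrPt N K o l (σ l)) * (Y i (σ i) * Y j (σ j)) =
        -2 * κ * ∑ i, ∑ a, Y i a ^ 2 := by
      rw [← sum_two Y hr hc, Finset.sum_comm, Finset.mul_sum]
      refine Finset.sum_congr rfl fun i _ => ?_
      rw [Finset.sum_comm, Finset.mul_sum]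
      refine Finset.sum_congr rfl fun j hj => ?_
      have hji := Finset.ne_of_mem_erase hj
      by_cases hi : i = o
      · subst hi
        simp [hYr]
      by_cases hj' : j = o
      · subst hj'
        simp [hYr]
      rw [← form2 κ hκ o Y hYc i j hji.symm hi hj']
      refine Finset.sum_congr rfl fun σ _ => ?_
      congr 1
      rw [Finset.prod_eq_single o]
      · intro l _ hl
        exact mrPt_ne o l _ hl
      · intro ho
        exact absurd (Finset.mem_erase.mpr ⟨Ne.symm hj', Finset.mem_erase.mpr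
          ⟨Ne.symm hi, Finset.mem_univ o⟩⟩) ho
    rw [key] at h2
    rcases mul_eq_zero.mp h2 with h5 | h5
    · exact absurd h5 (mul_ne_zero (by norm_num) hκ0)
    · exact h5
  · let κ := cnt4 (S 0) (S 1) (S 2) (S 3) (S 0) (S 1) (S 2) (S 3)
    have hκ0 : (κ : K) ≠ 0 :=
      Nat.cast_ne_zero.mpr (cnt4_pos _ _ _ _ _ _ _ _ n01 n02 n03 n12 n13 n23 n01 n02 n03 n12
        n13 n23).ne'
    have hκ : ∀ i j k l a b d e : N, i ≠ j → i ≠ k → i ≠ l → j ≠ k → j ≠ l →
      k ≠ l → a ≠ b → a ≠ d → a ≠ e → b ≠ d → b ≠ e → d ≠ e → cnt4 i j k l a b d e = κ :=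
      fun i j k l a b d e h1 h2 h3 h4 h5 h6 g1 g2 g3 g4 g5 g6 =>
        cnt4_eq _ _ _ _ _ _ _ _ _ _ _ _ _ _ _ _ h1 h2 h3 h4 h5 h6 g1 g2 g3 g4 g5 g6
          n01 n02 n03 n12 n13 n23 n01 n02 n03 n12 n13 n23
    have key : ∑ σ : Equiv.Perm N, ∑ i, ∑ j ∈ Finset.univ.erase i,
        ∑ k ∈ (Finset.univ.erase i).erase j,
        (∏ l ∈ ((Finset.univ.erase i).erase j).erase k, mrPt N K o l (σ l)) *
          (Y i (σ i) * (Y j (σ j) * Y k (σ k))) =
        -3 * κ * (4 * ∑ i, ∑ a, Y i a ^ 3) := by
      rw [← sum_three Y hr hc, Finset.sum_comm, Finset.mul_sum]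
      refine Finset.sum_congr rfl fun i _ => ?_
      rw [Finset.sum_comm, Finset.mul_sum]
      refine Finset.sum_congr rfl fun j hj => ?_
      rw [Finset.sum_comm, Finset.mul_sum]
      refine Finset.sum_congr rfl fun k hk => ?_
      have hji := Finset.ne_of_mem_erase hj
      have hkj := Finset.ne_of_mem_erase hk
      have hki := Finset.ne_of_mem_erase (Finset.mem_of_mem_erase hk)
      by_cases hi : i = o
      · subst hi
        simp [hYr]
      by_cases hj' : j = o
      · subst hj'
        simp [hYr]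
      by_cases hk' : k = o
      · subst hk'
        simp [hYr]
      rw [← form3 κ hκ o Y hYc i j k hji.symm hki.symm hkj.symm hi hj' hk']
      refine Finset.sum_congr rfl fun σ _ => ?_
      congr 1
      rw [Finset.prod_eq_single o]
      · intro l _ hl
        exact mrPt_ne o l _ hl
      · intro ho
        exact absurd (Finset.mem_erase.mpr ⟨Ne.symm hk', Finset.mem_erase.mpr
          ⟨Ne.symm hj', Finset.mem_erase.mpr ⟨Ne.symm hi, Finset.mem_univ o⟩⟩⟩) ho
    rw [key] at h3
    rcases mul_eq_zero.mp h3 with h5 | h5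
    · exact absurd h5 (mul_ne_zero (by norm_num) hκ0)
    · rcases mul_eq_zero.mp h5 with h6 | h6
      · exact absurd h6 (by norm_num)
      · exact h6

end Pool.Agent.Helper20.MR2
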