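import Mathlib

/-! A Rado-Horn type partition lemma for subspaces of `K^P`. -/

namespace Pool.Agent.Helper20.MR2

open Module

/-- vectors vanishing on `T` -/
def vanish (K : Type*) {P : Type*} [Field K] (T : Finset P) : Submodule K (P → K) where
  carrier := {v | ∀ t ∈ T, v t = 0}
  add_mem' := fun {a b} ha hb t ht => by
    rw [Pi.add_apply, ha t ht, hb t ht, add_zero]
  zero_mem' := fun t _ => rfl
  smul_mem' := fun c v hv t ht => by
    rw [Pi.smul_apply, hv t ht, smul_zero]

/-- dimension -/
noncomputable def dm {K P : Type*} [Field K] (V : Submodule K (P → K)) : ℕ := finrank K V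

variable {K P : Type*} [Field K]

theorem mem_vanish {T : Finset P} {v : P → K} : v ∈ vanish K T ↔ ∀ t ∈ T, v t = 0 := Iff.rfl

theorem vanish_empty : vanish K (∅ : Finset P) = ⊤ := by
  ext v
  simp [mem_vanish]

theorem vanish_univ [Fintype P] : vanish K (Finset.univ : Finset P) = ⊥ := by
  ext v
  simp only [mem_vanish, Finset.mem_univ, true_imp_iff, Submodule.mem_bot]
  exact ⟨fun h => funext h, fun h t => congrFun h t⟩

variable [DecidableEq P]

theorem vanish_union (T T' : Finset P) : vanish K (T ∪ T') = vanish K T ⊓ vanish K T' := by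
  ext v
  simp only [mem_vanish, Finset.mem_union, Submodule.mem_inf]
  constructor
  · intro h
    exact ⟨fun t ht => h t (Or.inl ht), fun t ht => h t (Or.inr ht)⟩
  · rintro ⟨h1, h2⟩ t (ht | ht)
    · exact h1 t ht
    · exact h2 t ht

variable [Fintype P]

omit [DecidableEq P] in
theorem dm_mono {V W : Submodule K (P → K)} (h : V ≤ W) : dm V ≤ dm W :=
  Submodule.finrank_mono h

omit [DecidableEq P] in
theorem finrank_inf_vanish_singleton (V : Submodule K (P → K)) (t : P) :
    dm V ≤ dm (V ⊓ vanish K {t}) + 1 := by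
  -- the evaluation at `t`, restricted to `V`
  let f : V →ₗ[K] K := (LinearMap.proj t).comp V.subtype
  have h1 := LinearMap.finrank_range_add_finrank_ker f
  have h2 : finrank K (LinearMap.range f) ≤ 1 := by
    have := Submodule.finrank_le (LinearMap.range f)
    rwa [Module.finrank_self] at this
  have h3 : finrank K (LinearMap.ker f) =
      finrank K (V ⊓ vanish K {t} : Submodule K (P → K)) := by
    have h4 : (LinearMap.ker f).map V.subtype = V ⊓ vanish K {t} := by
      ext v
      simp only [Submodule.mem_map, LinearMap.mem_ker, Submodule.mem_inf, mem_vanish,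
        Finset.mem_singleton, forall_eq]
      constructor
      · rintro ⟨w, hw, rfl⟩
        exact ⟨w.2, hw⟩
      · rintro ⟨hv, hvt⟩
        exact ⟨⟨v, hv⟩, hvt, rfl⟩
    rw [← h4]
    exact (Submodule.finrank_map_subtype_eq V _).symm
  rw [dm, dm]
  omega

theorem exists_coloring {ι : Type*} [Fintype ι] [DecidableEq ι] [Nonempty ι] :
    ∀ (n : ℕ) (T : Finset P), T.card = n → ∀ V : ι → Submodule K (P → K),
      (∀ T' ⊆ T, T'.card + ∑ j, dm (V j ⊓ vanish K T') ≤ ∑ j, dm (V j)) →
      ∃ c : P → ι, ∀ j, ∀ x : P → K, ∃ v ∈ V j, ∀ t ∈ T, c t = j → v t = x t := by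
  intro n
  induction n using Nat.strong_induction_on with
  | _ n ih =>
  intro T hT V hV
  rcases T.eq_empty_or_nonempty with hE | hne
  · refine ⟨fun _ => Classical.arbitrary ι, fun j x => ⟨0, (V j).zero_mem, ?_⟩⟩
    intro t ht
    rw [hE] at ht
    exact absurd ht (Finset.notMem_empty t)
  by_cases hA : ∃ T' ⊆ T, T' ≠ ∅ ∧ T' ≠ T ∧
      T'.card + ∑ j, dm (V j ⊓ vanish K T') = ∑ j, dm (V j)
  · obtain ⟨T', hT'T, hT'0, hT'1, htight⟩ := hA
    have hlt : T'.card < n := by
      rw [← hT]
      exact Finset.card_lt_card (Finset.ssubset_iff_subset_ne.mpr ⟨hT'T, hT'1⟩)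
    have hcard : (T \ T').card + T'.card = T.card := Finset.card_sdiff_add_card_eq_card hT'T
    have hpos : 0 < T'.card := Finset.card_pos.mpr (Finset.nonempty_iff_ne_empty.mpr hT'0)
    have hlt2 : (T \ T').card < n := by omega
    obtain ⟨c₁, hc₁⟩ := ih _ hlt T' rfl V (fun T'' h => hV T'' (h.trans hT'T))
    obtain ⟨c₂, hc₂⟩ := ih _ hlt2 (T \ T') rfl (fun j => V j ⊓ vanish K T') (by
      intro T'' hT''
      have h1 := hV (T' ∪ T'') (Finset.union_subset hT'T (hT''.trans Finset.sdiff_subset))
      have h2 : Disjoint T' T'' := by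
        rw [Finset.disjoint_left]
        intro t ht1 ht2
        exact (Finset.mem_sdiff.mp (hT'' ht2)).2 ht1
      rw [Finset.card_union_of_disjoint h2, vanish_union] at h1
      simp only [inf_assoc]
      omega)
    refine ⟨fun t => if t ∈ T' then c₁ t else c₂ t, fun j x => ?_⟩
    obtain ⟨v₁, hv₁, hv₁'⟩ := hc₁ j x
    obtain ⟨v₂, hv₂, hv₂'⟩ := hc₂ j (x - v₁)
    refine ⟨v₁ + v₂, (V j).add_mem hv₁ hv₂.1, ?_⟩
    intro t ht hct
    by_cases htT : t ∈ T'
    · simp only [if_pos htT] at hct
      rw [Pi.add_apply, hv₁' t htT hct, hv₂.2 t htT, add_zero]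
    · simp only [if_neg htT] at hct
      rw [Pi.add_apply, hv₂' t (Finset.mem_sdiff.mpr ⟨ht, htT⟩) hct, Pi.sub_apply]
      ring
  · push Not at hA
    obtain ⟨t, ht⟩ := hne
    -- some `V j` is not contained in the vectors vanishing at `t`
    have hj : ∃ j, dm (V j ⊓ vanish K {t}) < dm (V j) := by
      by_contra hcon
      push Not at hcon
      have h1 := hV {t} (Finset.singleton_subset_iff.mpr ht)
      rw [Finset.card_singleton] at h1
      have h2 : ∑ j, dm (V j) ≤ ∑ j, dm (V j ⊓ vanish K {t}) :=
        Finset.sum_le_sum fun j _ => hcon j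
      omega
    obtain ⟨j, hj⟩ := hj
    have hw : ∃ w ∈ V j, w t ≠ 0 := by
      by_contra hcon
      push Not at hcon
      have h1 : V j ⊓ vanish K {t} = V j := by
        refine inf_eq_left.mpr ?_
        intro w hw
        rw [mem_vanish]
        intro t' ht'
        rw [Finset.mem_singleton.mp ht']
        exact hcon w hw
      rw [h1] at hj
      exact lt_irrefl _ hj
    obtain ⟨w, hwV, hwt⟩ := hw
    let V' : ι → Submodule K (P → K) := Function.update V j (V j ⊓ vanish K {t})
    have hV'j : V' j = V j ⊓ vanish K {t} := Function.update_self _ _ _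
    have hV'i : ∀ i, i ≠ j → V' i = V i := fun i hi => Function.update_of_ne hi _ _
    have hV'le : ∀ i, V' i ≤ V i := by
      intro i
      by_cases h : i = j
      · subst h
        rw [hV'j]
        exact inf_le_left
      · rw [hV'i i h]
    have hsum : ∑ i, dm (V i) ≤ ∑ i, dm (V' i) + 1 := by
      rw [← Finset.add_sum_erase _ _ (Finset.mem_univ j),
        ← Finset.add_sum_erase _ (fun i => dm (V' i)) (Finset.mem_univ j)]
      have h1 : ∑ i ∈ Finset.univ.erase j, dm (V' i) = ∑ i ∈ Finset.univ.erase j, dm (V i) :=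
        Finset.sum_congr rfl fun i hi => by rw [hV'i i (Finset.ne_of_mem_erase hi)]
      have h2 := finrank_inf_vanish_singleton (V j) t
      rw [hV'j, h1]
      omega
    obtain ⟨c₁, hc₁⟩ := ih (T.erase t).card (by
        rw [← hT]; exact Finset.card_erase_lt_of_mem ht) (T.erase t) rfl V' (by
      intro T'' hT''
      rcases T''.eq_empty_or_nonempty with h0 | hne''
      · subst h0
        simp only [vanish_empty, Finset.card_empty, zero_add, inf_top_eq]
        exact le_refl _
      · have h1 := hV T'' (hT''.trans (Finset.erase_subset _ _))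
        have h2 := hA T'' (hT''.trans (Finset.erase_subset _ _)) hne'' (by
          intro h
          rw [h] at hT''
          exact absurd (hT'' ht) (Finset.notMem_erase t T))
        have h3 : ∑ i, dm (V' i ⊓ vanish K T'') ≤ ∑ i, dm (V i ⊓ vanish K T'') :=
          Finset.sum_le_sum fun i _ => dm_mono (inf_le_inf_right _ (hV'le i))
        omega)
    refine ⟨Function.update c₁ t j, fun i x => ?_⟩
    by_cases hi : i = j
    · subst hi
      obtain ⟨v₂, hv₂, hv₂'⟩ := hc₁ i (x - (x t / w t) • w)
      rw [hV'j] at hv₂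
      refine ⟨(x t / w t) • w + v₂, (V i).add_mem ((V i).smul_mem _ hwV) hv₂.1, ?_⟩
      intro t' ht' hct'
      by_cases h : t' = t
      · subst h
        rw [Pi.add_apply, hv₂.2 t' (Finset.mem_singleton_self t'), Pi.smul_apply, smul_eq_mul,
          div_mul_cancel₀ _ hwt, add_zero]
      · rw [Function.update_of_ne h] at hct'
        rw [Pi.add_apply, hv₂' t' (Finset.mem_erase.mpr ⟨h, ht'⟩) hct', Pi.sub_apply]
        ring
    · obtain ⟨v, hv, hv'⟩ := hc₁ i x
      rw [hV'i i hi] at hv
      refine ⟨v, hv, ?_⟩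
      intro t' ht' hct'
      by_cases h : t' = t
      · subst h
        rw [Function.update_self] at hct'
        exact absurd hct'.symm hi
      · rw [Function.update_of_ne h] at hct'
        exact hv' t' (Finset.mem_erase.mpr ⟨h, ht'⟩) hct'

end Pool.Agent.Helper20.MR2
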