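import Mathlib
import Pool.Agent.Helper20.MR2.Partition

/-! Subspaces of `K^P` on which all products of at most `k` elements have coordinate sum zero:
`k * dim < |P|`. -/

namespace Pool.Agent.Helper20.MR2

open Module

variable {K P : Type*} [Field K] [CharZero K] [DecidableEq P] [Fintype P]

theorem power_aux {k : ℕ} (hk : 0 < k) (V : Submodule K (P → K))
    (hV : ∀ s : Finset (Fin k), s.Nonempty → ∀ v : Fin k → P → K, (∀ j, v j ∈ V) →
      ∑ p, ∏ j ∈ s, v j p = 0) (S : Finset P)
    (hS : ∀ S' : Finset P, S'.card + k * dm (V ⊓ vanish K S') ≤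
      S.card + k * dm (V ⊓ vanish K S)) : S = Finset.univ := by
  have : Nonempty (Fin k) := ⟨⟨0, hk⟩⟩
  obtain ⟨c, hc⟩ := exists_coloring (ι := Fin k) (Finset.univ \ S).card (Finset.univ \ S) rfl
    (fun _ => V ⊓ vanish K S) (by
      intro T' hT'
      have h1 := hS (S ∪ T')
      have h2 : Disjoint S T' := by
        rw [Finset.disjoint_left]
        intro t ht1 ht2
        exact (Finset.mem_sdiff.mp (hT' ht2)).2 ht1
      rw [Finset.card_union_of_disjoint h2, vanish_union] at h1
      simp only [Finset.sum_const, Finset.card_univ, Fintype.card_fin, smul_eq_mul, inf_assoc]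
      omega)
  choose v hvV hv using fun j => hc j (fun _ => -1)
  have h1 : ∑ p, ∏ j, (1 + v j p) = (Fintype.card P : K) := by
    have h2 : ∀ p, ∏ j, (1 + v j p) = ∑ s ∈ (Finset.univ : Finset (Fin k)).powerset,
        ∏ j ∈ s, v j p := fun p => Finset.prod_one_add (Finset.univ)
    rw [Finset.sum_congr rfl (fun p _ => h2 p), Finset.sum_comm]
    rw [Finset.sum_eq_single ∅]
    · simp
    · intro s _ hs
      exact hV s (Finset.nonempty_iff_ne_empty.mpr hs) v (fun j => (hvV j).1)
    · intro h
      exact absurd (Finset.empty_mem_powerset _) h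
  have h3 : ∑ p, ∏ j, (1 + v j p) = (S.card : K) := by
    have h4 : ∀ p, ∏ j, (1 + v j p) = if p ∈ S then 1 else 0 := by
      intro p
      split_ifs with hp
      · refine Finset.prod_eq_one fun j _ => ?_
        rw [(hvV j).2 p hp, add_zero]
      · refine Finset.prod_eq_zero (Finset.mem_univ (c p)) ?_
        rw [hv (c p) p (Finset.mem_sdiff.mpr ⟨Finset.mem_univ p, hp⟩) rfl]
        ring
    rw [Finset.sum_congr rfl (fun p _ => h4 p)]
    simp
  rw [h1] at h3
  have h5 : Fintype.card P = S.card := Nat.cast_injective h3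
  exact (Finset.card_eq_iff_eq_univ S).mp h5.symm

/-- If all products of at most `k` elements of `V` have coordinate sum zero, then
`k * dim V < |P|`. -/
theorem power_lt {k : ℕ} (hk : 0 < k) (hP : 0 < Fintype.card P) (V : Submodule K (P → K))
    (hV : ∀ s : Finset (Fin k), s.Nonempty → ∀ v : Fin k → P → K, (∀ j, v j ∈ V) →
      ∑ p, ∏ j ∈ s, v j p = 0) : k * dm V < Fintype.card P := by
  obtain ⟨S, -, hS⟩ := Finset.exists_max_image (Finset.univ : Finset (Finset P))
    (fun S => S.card + k * dm (V ⊓ vanish K S)) ⟨∅, Finset.mem_univ _⟩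
  have h1 := power_aux hk V hV S (fun S' => hS S' (Finset.mem_univ _))
  have h2 := hS ∅ (Finset.mem_univ _)
  have h3 : dm (V ⊓ vanish K S) = 0 := by
    rw [h1, vanish_univ, inf_bot_eq]
    exact finrank_bot K (P → K)
  rw [h3, mul_zero, add_zero, Finset.card_empty, zero_add, vanish_empty, inf_top_eq, h1,
    Finset.card_univ] at h2
  refine lt_of_le_of_ne h2 ?_
  intro h4
  have h5 : (∅ : Finset P) = Finset.univ := by
    refine power_aux hk V hV ∅ ?_
    intro S'
    refine (hS S' (Finset.mem_univ _)).trans ?_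
    rw [h3, mul_zero, add_zero, Finset.card_empty, zero_add, vanish_empty, inf_top_eq, h4, h1,
      Finset.card_univ]
  rw [← Finset.card_univ, ← h5, Finset.card_empty] at hP
  exact lt_irrefl _ hP

end Pool.Agent.Helper20.MR2
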