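import Mathlib
import Pool.Agent.Helper20.MR2.Forms
import Pool.Agent.Helper20.MR2.Power

/-! The lower bound for the determinantal complexity of the permanent. -/

namespace Pool.Agent.Helper20.MR2

open Pool.Agent.Helper20.MR Module Matrix

section ext

variable {N : Type*} [DecidableEq N] {K : Type*} [Field K]

/-- positions outside row `o` and column `o` -/
abbrev Pos (o : N) : Type _ := {p : N × N // p.1 ≠ o ∧ p.2 ≠ o}

/-- extension by zero -/
def ext (o : N) (y : Pos o → K) (i a : N) : K := if h : i ≠ o ∧ a ≠ o then y ⟨(i, a), h⟩ else 0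

theorem ext_row (o : N) (y : Pos o → K) (a : N) : ext o y o a = 0 := by simp [ext]

theorem ext_col (o : N) (y : Pos o → K) (i : N) : ext o y i o = 0 := by simp [ext]

theorem ext_add (o : N) (y z : Pos o → K) (i a : N) :
    ext o (y + z) i a = ext o y i a + ext o z i a := by
  unfold ext
  split_ifs <;> simp

theorem ext_smul (o : N) (c : K) (y : Pos o → K) (i a : N) :
    ext o (c • y) i a = c * ext o y i a := by
  unfold ext
  split_ifs <;> simp

theorem sum_ext [Fintype N] (o : N) (y : Pos o → K) (g : K → K) (hg : g 0 = 0) :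
    ∑ i, ∑ a, g (ext o y i a) = ∑ p, g (y p) := by
  rw [← Fintype.sum_prod_type' (fun i a => g (ext o y i a))]
  have h1 : ∑ p : Pos o, g (y p) = ∑ p : Pos o, g (ext o y p.1.1 p.1.2) := by
    refine Finset.sum_congr rfl fun p _ => ?_
    rw [ext, dif_pos p.2]
  rw [h1, ← Finset.sum_subtype (Finset.univ.filter fun p : N × N => p.1 ≠ o ∧ p.2 ≠ o)
    (by intro p; simp) (fun p => g (ext o y p.1 p.2))]
  rw [Finset.sum_filter]
  refine (Finset.sum_congr rfl fun p _ => ?_)
  split_ifs with h
  · rfl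
  · rw [ext, dif_neg h, hg]

theorem card_pos [Fintype N] (o : N) :
    Fintype.card (Pos o) = (Fintype.card N - 1) * (Fintype.card N - 1) := by
  have h1 : Fintype.card (Pos o) = Fintype.card ({i : N // i ≠ o} × {i : N // i ≠ o}) := by
    refine Fintype.card_congr ?_
    exact Equiv.subtypeProdEquivProd (p := fun i : N => i ≠ o) (q := fun i : N => i ≠ o)
  rw [h1, Fintype.card_prod]
  have h2 : Fintype.card {i : N // i ≠ o} = Fintype.card N - 1 := by
    rw [Fintype.card_subtype_compl, Fintype.card_subtype_eq]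
  rw [h2]

end ext

variable {N : Type*} [Fintype N] [DecidableEq N] {K : Type*} [Field K] [CharZero K]
  {S : Type*} [Fintype S] [DecidableEq S]

/-- products of at most three elements have coordinate sum zero -/
theorem polarise {P : Type*} [Fintype P] (V : Submodule K (P → K))
    (h1 : ∀ v ∈ V, ∑ p, v p = 0) (h2 : ∀ v ∈ V, ∑ p, v p ^ 2 = 0)
    (h3 : ∀ v ∈ V, ∑ p, v p ^ 3 = 0) :
    ∀ s : Finset (Fin 3), s.Nonempty → ∀ v : Fin 3 → P → K, (∀ j, v j ∈ V) →
      ∑ p, ∏ j ∈ s, v j p = 0 := by
  have g2 : ∀ u ∈ V, ∀ w ∈ V, ∑ p, u p * w p = 0 := by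
    intro u hu w hw
    have e1 := h2 (u + w) (V.add_mem hu hw)
    have e2 : ∑ p, (u + w) p ^ 2 = ∑ p, u p ^ 2 + ∑ p, w p ^ 2 + 2 * ∑ p, u p * w p := by
      rw [Finset.mul_sum, ← Finset.sum_add_distrib, ← Finset.sum_add_distrib]
      refine Finset.sum_congr rfl fun p _ => ?_
      rw [Pi.add_apply]
      ring
    rw [e2, h2 u hu, h2 w hw, zero_add, zero_add] at e1
    exact (mul_eq_zero.mp e1).resolve_left two_ne_zero
  have g3 : ∀ u ∈ V, ∀ w ∈ V, ∀ z ∈ V, ∑ p, u p * (w p * z p) = 0 := by
    intro u hu w hw z hz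
    have e1 := h3 (u + w + z) (V.add_mem (V.add_mem hu hw) hz)
    have e2 : ∑ p, (u + w + z) p ^ 3 = ∑ p, (u + w) p ^ 3 + ∑ p, (u + z) p ^ 3 +
        ∑ p, (w + z) p ^ 3 - ∑ p, u p ^ 3 - ∑ p, w p ^ 3 - ∑ p, z p ^ 3 +
        6 * ∑ p, u p * (w p * z p) := by
      rw [Finset.mul_sum, ← Finset.sum_add_distrib, ← Finset.sum_add_distrib,
        ← Finset.sum_sub_distrib, ← Finset.sum_sub_distrib, ← Finset.sum_sub_distrib,
        ← Finset.sum_add_distrib]
      refine Finset.sum_congr rfl fun p _ => ?_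
      simp only [Pi.add_apply]
      ring
    rw [e2, h3 _ (V.add_mem hu hw), h3 _ (V.add_mem hu hz), h3 _ (V.add_mem hw hz), h3 u hu,
      h3 w hw, h3 z hz] at e1
    simp only [zero_add, sub_zero] at e1
    exact (mul_eq_zero.mp e1).resolve_left (by norm_num)
  intro s hs v hv
  have hc : s.card = 1 ∨ s.card = 2 ∨ s.card = 3 := by
    have := Finset.card_le_univ s
    rw [Fintype.card_fin] at this
    have := Finset.card_pos.mpr hs
    omega
  rcases hc with hc | hc | hc
  · obtain ⟨a, rfl⟩ := Finset.card_eq_one.mp hc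
    simp only [Finset.prod_singleton]
    exact h1 _ (hv a)
  · obtain ⟨a, b, hab, rfl⟩ := Finset.card_eq_two.mp hc
    simp only [Finset.prod_pair hab]
    exact g2 _ (hv a) _ (hv b)
  · obtain ⟨a, b, d, hab, had, hbd, rfl⟩ := Finset.card_eq_three.mp hc
    have e : ∀ p, ∏ j ∈ ({a, b, d} : Finset (Fin 3)), v j p = v a p * (v b p * v d p) := by
      intro p
      rw [Finset.prod_insert (by simp [hab, had]), Finset.prod_insert (by simp [hbd]),
        Finset.prod_singleton]
    simp only [e]
    exact g3 _ (hv a) _ (hv b) _ (hv d)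

/-- the linear matrix applied to a vector -/
theorem mulVec_sum (A : N → N → Matrix S S K) (X : N → N → K) (v : S → K) :
    (∑ i, ∑ j, X i j • A i j) *ᵥ v = ∑ i, ∑ j, X i j • (A i j *ᵥ v) := by
  rw [Matrix.sum_mulVec]
  refine Finset.sum_congr rfl fun i _ => ?_
  rw [Matrix.sum_mulVec]
  refine Finset.sum_congr rfl fun j _ => ?_
  rw [Matrix.smul_mulVec]

theorem main (hN : 4 ≤ Fintype.card N) (A₀ : Matrix S S K) (A : N → N → Matrix S S K)
    (h : ∀ X : Matrix N N K, (A₀ + ∑ i, ∑ j, X i j • A i j).det = X.permanent) :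
    2 * ((Fintype.card N - 2) * (Fintype.card N - 3)) ≤ 3 * Fintype.card S := by
  classical
  obtain ⟨o, o', hoo'⟩ : ∃ o o' : N, o ≠ o' := by
    have : 1 < Fintype.card N := by omega
    obtain ⟨a, b, hab⟩ := Fintype.one_lt_card_iff.mp this
    exact ⟨a, b, hab⟩
  -- the kernel vector at the Mignon-Ressayre point
  have h0 : (A₀ + ∑ i, ∑ j, mrPt N K o i j • A i j).det = 0 := by
    have h1 := h (mrPt N K o)
    rw [permanent_eq, permMl_mrPt] at h1
    exact h1
  obtain ⟨v, hv0, hv⟩ := Matrix.exists_mulVec_eq_zero_iff.mpr h0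
  -- the linear conditions
  let R := {i : N // i ≠ o}
  let C := {a : N // a ≠ o ∧ a ≠ o'}
  let Φ : (Pos o → K) →ₗ[K] (S → K) × (R → K) × (C → K) :=
    { toFun := fun y => (∑ i, ∑ j, ext o y i j • (A i j *ᵥ v), fun i => ∑ a, ext o y i.1 a,
        fun a => ∑ i, ext o y i a.1)
      map_add' := fun y z => by
        simp only [ext_add, add_smul, Finset.sum_add_distrib]
        rfl
      map_smul' := fun c y => by
        simp only [ext_smul, mul_smul, ← Finset.smul_sum, ← Finset.mul_sum, RingHom.id_apply]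
        rfl }
  let V : Submodule K (Pos o → K) := LinearMap.ker Φ
  have hm : ∀ y ∈ V, (∑ i, ∑ j, ext o y i j • (A i j *ᵥ v) = 0) ∧
      (∀ i, ∑ a, ext o y i a = 0) ∧ (∀ a, ∑ i, ext o y i a = 0) := by
    intro y hy
    have h1 : Φ y = 0 := hy
    have h2 := congrArg Prod.fst h1
    have h3 := congrArg (fun q => q.2.1) h1
    have h4 := congrArg (fun q => q.2.2) h1
    have hr : ∀ i, ∑ a, ext o y i a = 0 := by
      intro i
      by_cases hi : i = o
      · subst hi
        exact Finset.sum_eq_zero fun a _ => ext_row i y a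
      · exact congrFun h3 ⟨i, hi⟩
    refine ⟨h2, hr, ?_⟩
    have hc : ∀ a, a ≠ o' → ∑ i, ext o y i a = 0 := by
      intro a ha
      by_cases ha' : a = o
      · subst ha'
        exact Finset.sum_eq_zero fun i _ => ext_col a y i
      · exact congrFun h4 ⟨a, ha', ha⟩
    intro a
    by_cases ha : a = o'
    · have h5 : ∑ a, ∑ i, ext o y i a = 0 := by
        rw [Finset.sum_comm]
        exact Finset.sum_eq_zero fun i _ => hr i
      rw [Finset.sum_eq_single a] at h5
      · exact h5
      · intro b _ hb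
        exact hc b (by rw [← ha]; exact hb)
      · simp
    · exact hc a ha
  -- the permanent vanishes on the lines with direction in `V`
  have hp : ∀ y ∈ V, ∀ t : K, permMl N K (fun i a => mrPt N K o i a + t * ext o y i a) = 0 := by
    intro y hy t
    obtain ⟨h1, -, -⟩ := hm y hy
    rw [← permanent_eq, ← h]
    refine Matrix.exists_mulVec_eq_zero_iff.mp ⟨v, hv0, ?_⟩
    rw [Matrix.add_mulVec, mulVec_sum] at hv ⊢
    have h2 : ∑ i, ∑ j, (mrPt N K o i j + t * ext o y i j) • (A i j *ᵥ v) =
        ∑ i, ∑ j, mrPt N K o i j • (A i j *ᵥ v) +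
          t • ∑ i, ∑ j, ext o y i j • (A i j *ᵥ v) := by
      simp only [Finset.smul_sum, ← Finset.sum_add_distrib, add_smul, mul_smul]
    rw [h2, h1, smul_zero, add_zero]
    exact hv
  have hforms : ∀ y ∈ V, ∑ p, y p = 0 ∧ ∑ p, y p ^ 2 = 0 ∧ ∑ p, y p ^ 3 = 0 := by
    intro y hy
    obtain ⟨-, hr, hc⟩ := hm y hy
    obtain ⟨h2, h3⟩ := forms_zero hN o (ext o y) (ext_row o y) (ext_col o y) hr hc (hp y hy)
    refine ⟨?_, ?_, ?_⟩
    · rw [← sum_ext o y (fun x => x) rfl]
      exact Finset.sum_eq_zero fun i _ => hr i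
    · rw [← sum_ext o y (fun x => x ^ 2) (by simp)]
      exact h2
    · rw [← sum_ext o y (fun x => x ^ 3) (by simp)]
      exact h3
  have hcard := card_pos (N := N) o
  have hlt := power_lt (k := 3) (by norm_num) (by
      rw [hcard]
      have : 0 < Fintype.card N - 1 := by omega
      positivity) V
    (polarise V (fun y hy => (hforms y hy).1) (fun y hy => (hforms y hy).2.1)
      (fun y hy => (hforms y hy).2.2))
  -- dimension count
  have hR : Fintype.card R = Fintype.card N - 1 := by
    rw [Fintype.card_subtype_compl, Fintype.card_subtype_eq]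
  have hC : Fintype.card C = Fintype.card N - 2 := by
    have h1 : Fintype.card C = (Finset.univ.filter fun a : N => a ≠ o ∧ a ≠ o').card :=
      Fintype.card_subtype _
    have h2 : (Finset.univ.filter fun a : N => a ≠ o ∧ a ≠ o') =
        (Finset.univ.erase o).erase o' := by
      ext a
      simp [and_comm]
    rw [h1, h2, Finset.card_erase_of_mem (by simp [hoo'.symm]),
      Finset.card_erase_of_mem (Finset.mem_univ _), Finset.card_univ]
    rfl
  have hdim : Fintype.card (Pos o) ≤ (Fintype.card S + ((Fintype.card N - 1) +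
      (Fintype.card N - 2))) + dm V := by
    have h1 := LinearMap.finrank_range_add_finrank_ker Φ
    have h2 := Submodule.finrank_le (LinearMap.range Φ)
    rw [Module.finrank_prod, Module.finrank_prod, Module.finrank_fintype_fun_eq_card,
      Module.finrank_fintype_fun_eq_card, Module.finrank_fintype_fun_eq_card, hR, hC] at h2
    rw [Module.finrank_fintype_fun_eq_card] at h1
    have h3 : dm V = finrank K (LinearMap.ker Φ) := rfl
    omega
  rw [hcard] at hdim hlt
  obtain ⟨m, hm'⟩ : ∃ m, Fintype.card N = m + 4 := ⟨Fintype.card N - 4, by omega⟩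
  rw [hm'] at hdim hlt ⊢
  have e1 : m + 4 - 1 = m + 3 := by omega
  have e2 : m + 4 - 2 = m + 2 := by omega
  have e3 : m + 4 - 3 = m + 1 := by omega
  rw [e1, e2] at hdim
  rw [e1] at hlt
  rw [e2, e3]
  nlinarith

/-- `3 dc(perm_n) ≥ 2 (n-2) (n-3)`. -/
theorem main_fin (n s : ℕ) (A₀ : Matrix (Fin s) (Fin s) K)
    (A : Fin n → Fin n → Matrix (Fin s) (Fin s) K)
    (h : ∀ X : Matrix (Fin n) (Fin n) K,
      (A₀ + ∑ i, ∑ j, X i j • A i j).det = X.permanent) :
    2 * ((n - 2) * (n - 3)) ≤ 3 * s := by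
  by_cases hn : 4 ≤ n
  · have h1 := main (N := Fin n) (S := Fin s) (by rw [Fintype.card_fin]; exact hn) A₀ A h
    rwa [Fintype.card_fin, Fintype.card_fin] at h1
  · have h1 : n - 3 = 0 := by omega
    rw [h1, mul_zero, mul_zero]
    exact Nat.zero_le _

end Pool.Agent.Helper20.MR2
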